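import Pool.Agent.PFC.StmtsB5a
import Pool.Agent.PFC.B4.Key

set_option autoImplicit false

noncomputable section

namespace Pool.Agent.PFC.B5a.H70

open scoped BigOperators

/-- The diagonal homomorphism. -/
def dg (V : Type) [CommGroup V] : V →* V × V := (MonoidHom.id V).prod (MonoidHom.id V)

/-- The points of `Ω` fixed by the diagonal copy of `Q`. -/
def Op {V : Type} [CommGroup V] (Q : Subgroup V) (Ω : Type) [MulAction (V × V) Ω] : Type :=
  {ω : Ω // ∀ u ∈ Q, ((u, u) : V × V) • ω = ω}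

instance {V : Type} [CommGroup V] (Q : Subgroup V) (Ω : Type) [MulAction (V × V) Ω] :
    MulAction (V × V) (Op Q Ω) where
  smul w ω := ⟨w • ω.1, fun u hu => by
    rw [← mul_smul, mul_comm, mul_smul, ω.2 u hu]⟩
  one_smul ω := Subtype.ext (one_smul _ _)
  mul_smul x y ω := Subtype.ext (mul_smul _ _ _)

lemma Op_smul {V : Type} [CommGroup V] (Q : Subgroup V) (Ω : Type) [MulAction (V × V) Ω]
    (w : V × V) (ω : Op Q Ω) : (w • ω).1 = w • ω.1 := rfl

lemma fac {F M B : Type} [Field F] [AddCommGroup M] [Module F M] [AddCommGroup B] [Module F B]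
    (q : M →ₗ[F] B) (hq : Function.Surjective q) (g : M →ₗ[F] F) (h : ∀ m, q m = 0 → g m = 0) :
    ∃ g' : B →ₗ[F] F, ∀ m, g' (q m) = g m := by
  obtain ⟨s, hs⟩ := q.exists_rightInverse_of_surjective (LinearMap.range_eq_top.2 hq)
  refine ⟨g.comp s, fun m => ?_⟩
  have h1 : q (s (q m) - m) = 0 := by
    rw [map_sub, sub_eq_zero]
    exact LinearMap.congr_fun hs (q m)
  have h2 := h _ h1
  rw [map_sub, sub_eq_zero] at h2
  exact h2

lemma bi_ap (F : Type) {V A : Type} [Field F] [Group V] [Ring A] [Algebra F A] (α : V →* A)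
    (w : V × V) (a : A) : bi F α w a = α w.1 * (a * α w.2⁻¹) := rfl

theorem qfc : QfcStmt := by
  intro hBki ℓ _ F V A B _ _ _ _ _ _ _ _ α Q q Ω _ _ b c hV hq hfr
  classical
  obtain ⟨hFx, -, -⟩ := hBki F V A α Q
  -- the frame restricted to the diagonal
  let actV : MulAction V Ω := MulAction.compHom Ω (dg V)
  have hsm : ∀ (u : V) (ω : Ω), u • ω = ((u, u) : V × V) • ω := fun u ω => rfl
  have hfrV : IsFr (cj F α) b c := ⟨fun u ω => hfr.1 (u, u) ω, fun u ω m => hfr.2.1 (u, u) ω m,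
    hfr.2.2⟩
  have hQ : IsPGroup ℓ Q := hV.to_subgroup Q
  have hfix : Fintype (Op Q Ω) := Subtype.fintype _
  -- the vectors
  have hb : ∀ ω : Op Q Ω, b ω.1 ∈ Cz F α Q := by
    intro ω
    rw [← hFx]
    intro u hu
    change cj F α u (b ω.1) = b ω.1
    rw [← hfrV.1 u ω.1]
    congr 1
    exact ω.2 u hu
  -- the functionals
  have hc : ∀ ω : Op Q Ω, ∃ g' : B →ₗ[F] F, ∀ a : Cz F α Q, g' (q a) = c ω.1 a := by
    intro ω
    refine fac q.toLinearMap hq.sur ((c ω.1).comp (Cz F α Q).val.toLinearMap) fun a ha => ?_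
    exact frame_BK hfrV Q hQ ((hq.ker a).1 ha) ω.1 fun u hu => ω.2 u hu
  choose c' hc' using hc
  have hbe : ∀ (w : V × V) (a : Cz F α Q), bi F (be F α Q q) w (q a) =
      q (zin F α Q w.1 * (a * zin F α Q w.2⁻¹)) := by
    intro w a
    rw [bi_ap, map_mul, map_mul]
    rfl
  refine ⟨Op Q Ω, hfix, inferInstance, fun ω => ω.1, fun ω => q ⟨b ω.1, hb ω⟩, c', ⟨?_, ?_, ?_⟩,
    Subtype.val_injective, ?_, fun w ω => rfl, hc', fun ω => ⟨_, rfl, rfl⟩⟩
  · intro w ω
    rw [hbe]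
    refine congrArg q (Subtype.ext ?_)
    change b (w • ω.1) = _
    rw [hfr.1 w ω.1]
    rfl
  · intro w ω m
    obtain ⟨a, rfl⟩ := hq.sur m
    rw [hbe, hc', hc']
    exact hfr.2.1 w ω.1 a
  · intro m
    obtain ⟨a, rfl⟩ := hq.sur m
    have h1 : (a : A) ∈ Fx (cj F α) Q := (hFx _).2 a.2
    have h2 := frame_sub hfrV Q h1
    have h3 : ∑ ω : Op Q Ω, c' ω (q a) • q ⟨b ω.1, hb ω⟩ =
        q (∑ ω : Op Q Ω, c ω.1 a • ⟨b ω.1, hb ω⟩) := by
      rw [map_sum]
      refine Finset.sum_congr rfl fun ω _ => ?_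
      rw [map_smul, hc']
    rw [h3, ← sub_eq_zero, ← map_sub, hq.ker]
    have h4 : ((∑ ω : Op Q Ω, c ω.1 (a : A) • (⟨b ω.1, hb ω⟩ : Cz F α Q) : Cz F α Q) : A) =
        ∑ ω ∈ fp Q Ω, c ω a • b ω := by
      rw [AddSubmonoidClass.coe_finsetSum]
      symm
      exact Finset.sum_subtype (fp Q Ω) (fun ω => mem_fp Q Ω ω) fun ω => c ω a • b ω
    rw [AddSubgroupClass.coe_sub, h4, ← neg_sub]
    exact Submodule.neg_mem _ h2
  · intro ω
    constructor
    · rintro ⟨ω', rfl⟩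
      exact ω'.2
    · intro h
      exact ⟨⟨ω, h⟩, rfl⟩

end Pool.Agent.PFC.B5a.H70
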