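import Pool.Agent.PFC.StmtsB6
import Pool.Agent.Helper74_PP.Brt
import Pool.Agent.Helper75_PP.Local

/-!
# Squad PFC, row CBR: the Brauer map of the corner
-/

open scoped BigOperators

noncomputable section

namespace Pool.Agent.PFC.H70

open Pool.Agent.Helper51_AWC Pool.Agent.Helper79_WRA Pool.Agent.PP Pool.Agent.PP.KF
open Pool.Agent.PP.K9 Pool.Agent.PP.K9.H97 Pool.Agent.PP.H75 Pool.Agent.PP.T3 Pool.Agent.PP.T2
open Pool.Agent.PP.T8 (Fr rs pw)

attribute [local instance] Ideal.Quotient.field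

section res

variable {F G : Type} [Field F] [Group G] [Finite G]

/-- sums over the group of invariant functions -/
theorem sum_inv {ℓ : ℕ} (hℓ : ℓ.Prime) (hF : CharP F ℓ) {P : Subgroup G} (hP : IsPGroup ℓ P)
    (h : G → F) (hh : ∀ p ∈ P, ∀ t, h (p * t * p⁻¹) = h t) :
    ∑ᶠ t, h t = ∑ᶠ t : Subgroup.centralizer (P : Set G), h t := by
  have h1 := H74.orb ℓ F F P (CT G) hℓ hF hP (fun t => h t.val) (fun r t => hh r r.2 t.val)
  have h2 : ∑ᶠ t : Subgroup.centralizer (P : Set G), h t =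
      ∑ᶠ (t : G) (_ : t ∈ (Subgroup.centralizer (P : Set G) : Set G)), h t :=
    finsum_set_coe_eq_finsum_mem _
  rw [h2, ← finsum_comp_equiv (ctE G)]
  refine h1.trans ?_
  rw [← finsum_comp_equiv (ctE G)]
  apply finsum_congr
  intro t
  have h3 := propext (ct_fixed P t.val)
  exact congrArg (fun p : Prop => ∑ᶠ (_ : p), h t.val) h3

/-- the restriction to the centraliser is multiplicative on invariant elements -/
theorem res_mulF {ℓ : ℕ} (hℓ : ℓ.Prime) (hF : CharP F ℓ) {P : Subgroup G} (hP : IsPGroup ℓ P)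
    {a c : G → F} (ha : ∀ p ∈ P, ∀ t, a (p * t * p⁻¹) = a t)
    (hc : ∀ p ∈ P, ∀ t, c (p * t * p⁻¹) = c t) :
    (fun t : Subgroup.centralizer (P : Set G) => mulF a c t) =
      mulF (fun t : Subgroup.centralizer (P : Set G) => a t)
        (fun t : Subgroup.centralizer (P : Set G) => c t) := by
  funext x
  unfold mulF
  rw [sum_inv hℓ hF hP (fun t => a t * c (t⁻¹ * x))]
  · rfl
  · intro p hp t
    rw [ha p hp t]
    congr 1
    rw [← hc p hp (t⁻¹ * x)]
    congr 1
    have h2 := Subgroup.mem_centralizer_iff.1 x.2 p hp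
    have h3 : p⁻¹ * (x : G) = x * p⁻¹ := by
      rw [inv_mul_eq_iff_eq_mul, ← mul_assoc, h2, mul_inv_cancel_right]
    calc (p * t * p⁻¹)⁻¹ * (x : G) = p * t⁻¹ * (p⁻¹ * x) := by group
      _ = p * (t⁻¹ * x) * p⁻¹ := by rw [h3]; group

theorem inv_mulF {g : G} {a c : G → F} (ha : ∀ t, a (g * t * g⁻¹) = a t)
    (hc : ∀ t, c (g * t * g⁻¹) = c t) : ∀ t, mulF a c (g * t * g⁻¹) = mulF a c t := by
  have h1 : mulF (dl F g) (mulF a c) = mulF (mulF a c) (dl F g) := by
    rw [← H20.mulF_assoc, dl_comm ha, H20.mulF_assoc, dl_comm hc, ← H20.mulF_assoc]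
  intro t
  have h2 := congrFun h1 (g * t)
  rw [mulF_dl_l, mulF_dl_r] at h2
  simp only [inv_mul_cancel_left] at h2
  exact h2.symm

end res

/-- CBR -/
theorem cbr (hCps : CpsStmt) : CbrStmt := by
  intro ℓ hℓ F _ hchar G W _ _ _ _ ι hι hW j hj hv Q
  let P : Subgroup G := Q.map ι
  have hP : IsPGroup ℓ P := (hW.to_subgroup Q).map ι
  have hjP : ∀ p ∈ P, ∀ t, j (p * t * p⁻¹) = j t := by
    rintro p ⟨w, -, rfl⟩ t
    exact hv w t
  have hPC : P ≤ Subgroup.centralizer (P : Set G) := by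
    rintro p ⟨w, -, rfl⟩
    rw [Subgroup.mem_centralizer_iff]
    rintro p' ⟨w', -, rfl⟩
    rw [← map_mul, mul_comm, map_mul]
  have hc : mulF (fun t : Subgroup.centralizer (P : Set G) => j t)
      (fun t : Subgroup.centralizer (P : Set G) => j t) =
      (fun t : Subgroup.centralizer (P : Set G) => j t) := by
    rw [← res_mulF hℓ.out hchar hP hjP hjP, hj]
  -- the elements of the centraliser are invariant
  have hinv : ∀ a : Cz F (jal hj ι hv) Q, ∀ p ∈ P, ∀ t,
      cv (a : Crn hj) (p * t * p⁻¹) = cv (a : Crn hj) t := by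
    rintro a p ⟨w, hw, rfl⟩ t
    have h1 : jal hj ι hv w * (a : Crn hj) = (a : Crn hj) * jal hj ι hv w :=
      (Subalgebra.mem_centralizer_iff F).1 a.2 _ ⟨w, hw, rfl⟩
    have h2 := congrArg cv h1
    rw [cv_mul, cv_mul, cv_jal, H20.mulF_assoc, cv_l, dl_comm (hv w), ← H20.mulF_assoc, cv_r,
      mulF_dl_l, mulF_dl_r] at h2
    have h3 := congrFun h2 (ι w * t)
    simp only [inv_mul_cancel_left] at h3
    exact h3.symm
  have hmem : ∀ a : Cz F (jal hj ι hv) Q,
      mulF (fun t : Subgroup.centralizer (P : Set G) => j t)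
        (fun t : Subgroup.centralizer (P : Set G) => cv (a : Crn hj) t) =
        (fun t : Subgroup.centralizer (P : Set G) => cv (a : Crn hj) t) ∧
      mulF (fun t : Subgroup.centralizer (P : Set G) => cv (a : Crn hj) t)
        (fun t : Subgroup.centralizer (P : Set G) => j t) =
        (fun t : Subgroup.centralizer (P : Set G) => cv (a : Crn hj) t) := by
    intro a
    rw [← res_mulF hℓ.out hchar hP hjP (hinv a), ← res_mulF hℓ.out hchar hP (hinv a) hjP, cv_l,
      cv_r]
    exact ⟨rfl, rfl⟩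
  let β₀ : Cz F (jal hj ι hv) Q →ₗ[F] Crn hc :=
    { toFun := fun a => mkc hc (fun t => cv (a : Crn hj) t) (hmem a)
      map_add' := fun a b => rfl
      map_smul' := fun c a => rfl }
  have hβ₀ : ∀ a t, cv (β₀ a) t = cv (a : Crn hj) t := fun a t => rfl
  let β : Cz F (jal hj ι hv) Q →ₐ[F] Crn hc := AlgHom.ofLinearMap β₀
    (by
      apply cv_inj
      rfl)
    (by
      intro a b
      apply cv_inj
      rw [cv_mul]
      have h1 := res_mulF hℓ.out hchar hP (hinv a) (hinv b)
      exact h1)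
  have hβ : ∀ a t, cv (β a) t = cv (a : Crn hj) t := fun a t => rfl
  refine ⟨hc, β, ?_, hβ, ?_⟩
  · intro x
    classical
    obtain ⟨x', hx'⟩ : ∃ x' : G → F, x' = fun g =>
      if h : g ∈ Subgroup.centralizer (P : Set G) then cv x ⟨g, h⟩ else 0 := ⟨_, rfl⟩
    have hxr : (fun t : Subgroup.centralizer (P : Set G) => x' t) = cv x := by
      funext t
      rw [hx']
      exact dif_pos t.2
    have hxi : ∀ p ∈ P, ∀ t, x' (p * t * p⁻¹) = x' t := by
      intro p hp t
      by_cases ht : t ∈ Subgroup.centralizer (P : Set G)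
      · have h1 : p * t * p⁻¹ = t := by
          rw [mul_inv_eq_iff_eq_mul]
          exact Subgroup.mem_centralizer_iff.1 ht p hp
        rw [h1]
      · have h1 : p * t * p⁻¹ ∉ Subgroup.centralizer (P : Set G) := by
          intro h
          apply ht
          have h2 := Subgroup.mul_mem _ (Subgroup.mul_mem _ (Subgroup.inv_mem _ (hPC hp)) h)
            (hPC hp)
          have h3 : p⁻¹ * (p * t * p⁻¹) * p = t := by group
          rwa [h3] at h2
        rw [hx']
        simp only [dif_neg h1, dif_neg ht]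
    have hai : ∀ p ∈ P, ∀ t, cv (mkj hj x') (p * t * p⁻¹) = cv (mkj hj x') t := by
      intro p hp
      rw [cv_mkj]
      exact inv_mulF (hjP p hp) (inv_mulF (hxi p hp) (hjP p hp))
    have hmemC : mkj hj x' ∈ Cz F (jal hj ι hv) Q := by
      refine (Subalgebra.mem_centralizer_iff F).2 ?_
      rintro _ ⟨w, hw, rfl⟩
      apply cv_inj
      rw [cv_mul, cv_mul, cv_jal, H20.mulF_assoc, cv_l, dl_comm (hv w), ← H20.mulF_assoc, cv_r]
      exact dl_comm (hai (ι w) ⟨w, hw, rfl⟩)
    refine ⟨⟨mkj hj x', hmemC⟩, ?_⟩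
    apply cv_inj
    funext t
    rw [hβ]
    change cv (mkj hj x') t = cv x t
    rw [cv_mkj]
    have h1 := res_mulF hℓ.out hchar hP (hxi) hjP
    have h2 := res_mulF hℓ.out hchar hP hjP
      (fun p hp => inv_mulF (hxi p hp) (hjP p hp))
    rw [h1, hxr] at h2
    have h3 := cv_r hc x
    have h4 := cv_l hc x
    rw [h3, h4] at h2
    exact congrFun h2 t
  · intro a
    have hfx : (a : Crn hj) ∈ Fx (PFC.cj F (jal hj ι hv)) Q := by
      intro w hw
      have h1 : jal hj ι hv w * (a : Crn hj) = (a : Crn hj) * jal hj ι hv w :=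
        (Subalgebra.mem_centralizer_iff F).1 a.2 _ ⟨w, hw, rfl⟩
      change jal hj ι hv w * ((a : Crn hj) * jal hj ι hv w⁻¹) = a
      rw [← mul_assoc, h1, mul_assoc, ← map_mul, mul_inv_cancel, map_one, mul_one]
    rw [(hCps ℓ F G W ι hι hW j hj hv).2.2 Q a hfx]
    constructor
    · intro h g hg
      have h1 := hβ a ⟨g, hg⟩
      rw [h] at h1
      exact h1.symm
    · intro h
      apply cv_inj
      funext t
      rw [hβ]
      exact h t t.2

end Pool.Agent.PFC.H70
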