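import Pool.Agent.Helper70_PFC.CBR
import Pool.Agent.Helper39_AT6.LWD
import Pool.Agent.Helper14_AT8.FRY
import Pool.Agent.Helper33_PP.Gal

/-!
# Squad PFC, row CJJ: two coherent local idempotents are conjugate
-/

open scoped BigOperators

noncomputable section

set_option linter.unusedSectionVars false

namespace Pool.Agent.PFC.H70

open Pool.Agent.Helper51_AWC Pool.Agent.Helper79_WRA Pool.Agent.PP Pool.Agent.PP.KF
open Pool.Agent.PP.K9 Pool.Agent.PP.K9.H97 Pool.Agent.PP.H75 Pool.Agent.PP.T3 Pool.Agent.PP.T2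
open Pool.Agent.PP.T8 (Fr rs pw)

attribute [local instance] Ideal.Quotient.field

section mat

variable {F : Type} [Field F] {N : ℕ}

theorem trace_single (A : Matrix (Fin N) (Fin N) F) (m i : Fin N) :
    (A * Matrix.single m i 1).trace = A i m := by
  classical
  rw [Matrix.trace, Finset.sum_eq_single i]
  · rw [Matrix.diag_apply, Matrix.mul_apply, Finset.sum_eq_single m]
    · simp [Matrix.single]
    · intro b _ hb
      simp [Matrix.single, hb.symm]
    · intro h
      exact absurd (Finset.mem_univ _) h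
  · intro b _ hb
    rw [Matrix.diag_apply, Matrix.mul_apply]
    apply Finset.sum_eq_zero
    intro x _
    simp [Matrix.single, hb.symm]
  · intro h
    exact absurd (Finset.mem_univ _) h

theorem mid_single (A B : Matrix (Fin N) (Fin N) F) (i k l m : Fin N) :
    (A * Matrix.single k l (1 : F) * B : Matrix (Fin N) (Fin N) F) i m = A i k * B l m := by
  classical
  rw [Matrix.mul_apply, Finset.sum_eq_single l]
  · rw [Matrix.mul_apply, Finset.sum_eq_single k]
    · simp [Matrix.single]
    · intro b _ hb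
      simp [Matrix.single, hb.symm]
    · intro h
      exact absurd (Finset.mem_univ _) h
  · intro b _ hb
    rw [Matrix.mul_apply, Finset.sum_eq_zero, zero_mul]
    intro x _
    simp [Matrix.single, hb.symm]
  · intro h
    exact absurd (Finset.mem_univ _) h

theorem exists_trace {P P' : Matrix (Fin N) (Fin N) F} (hP : P ≠ 0) (hP' : P' ≠ 0) :
    ∃ X Y : Matrix (Fin N) (Fin N) F, (P * (X * (P' * Y))).trace ≠ 0 := by
  classical
  obtain ⟨i, k, hik⟩ : ∃ i k, P i k ≠ 0 := by
    by_contra h
    push Not at h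
    exact hP (by ext i k; exact h i k)
  obtain ⟨l, m, hlm⟩ : ∃ l m, P' l m ≠ 0 := by
    by_contra h
    push Not at h
    exact hP' (by ext i k; exact h i k)
  refine ⟨Matrix.single k l 1, Matrix.single m i 1, ?_⟩
  rw [← Matrix.mul_assoc, ← Matrix.mul_assoc, trace_single, mid_single]
  exact mul_ne_zero hik hlm

end mat

section alg

variable {F G : Type} [Field F] [Group G] [Finite G]

theorem dl_one_mul (a : G → F) : mulF (dl F (1 : G)) a = a := by
  rw [mulF_dl_l]
  funext y
  simp

theorem mul_dl_one (a : G → F) : mulF a (dl F (1 : G)) = a := by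
  rw [mulF_dl_r]
  funext y
  simp

theorem pw_zero' (x : G → F) : pw x 0 = dl F (1 : G) := rfl

theorem pw_succ' (x : G → F) (n : ℕ) : pw x (n + 1) = mulF x (pw x n) := rfl

theorem pw_idem {x : G → F} (hx : mulF x x = x) : ∀ n : ℕ, pw x (n + 1) = x := by
  intro n
  induction n with
  | zero => rw [pw_succ', pw_zero', mul_dl_one]
  | succ n ih => rw [pw_succ', ih, hx]

theorem it_idem {x : G → F} (hx : mulF x x = x) : ∀ n : ℕ, (mulF x)^[n] x = x := by
  intro n
  induction n with
  | zero => rfl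
  | succ n ih => rw [Function.iterate_succ_apply', ih, hx]

theorem ev_pw {N : ℕ} (ρ : G →* Matrix (Fin N) (Fin N) F) (x : G → F) :
    ∀ n : ℕ, ev ρ (pw x (n + 1)) = ev ρ x ^ (n + 1) := by
  intro n
  induction n with
  | zero => rw [pw_succ', pw_zero', mul_dl_one, zero_add, pow_one]
  | succ n ih => rw [pw_succ', H20.ev_mulF, ih, ← pow_succ']

/-- the extension by zero of a function on the centraliser is invariant -/
theorem inv_ext {V : Subgroup G} (hV : V ≤ Subgroup.centralizer (V : Set G)) {x : G → F}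
    (hx : ∀ g, g ∉ Subgroup.centralizer (V : Set G) → x g = 0) :
    ∀ p ∈ V, ∀ t, x (p * t * p⁻¹) = x t := by
  intro p hp t
  by_cases ht : t ∈ Subgroup.centralizer (V : Set G)
  · have h1 : p * t * p⁻¹ = t := by
      rw [mul_inv_eq_iff_eq_mul]
      exact Subgroup.mem_centralizer_iff.1 ht p hp
    rw [h1]
  · have h1 : p * t * p⁻¹ ∉ Subgroup.centralizer (V : Set G) := by
      intro h
      apply ht
      have h2 := Subgroup.mul_mem _ (Subgroup.mul_mem _ (Subgroup.inv_mem _ (hV hp)) h) (hV hp)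
      have h3 : p⁻¹ * (p * t * p⁻¹) * p = t := by group
      rwa [h3] at h2
    rw [hx _ h1, hx _ ht]

theorem res_pw {ℓ : ℕ} (hℓ : ℓ.Prime) (hF : CharP F ℓ) {P : Subgroup G} (hP : IsPGroup ℓ P)
    {a : G → F} (ha : ∀ p ∈ P, ∀ t, a (p * t * p⁻¹) = a t) : ∀ n : ℕ,
    (∀ p ∈ P, ∀ t, pw a n (p * t * p⁻¹) = pw a n t) ∧
    (fun t : Subgroup.centralizer (P : Set G) => pw a n t) =
      pw (fun t : Subgroup.centralizer (P : Set G) => a t) n := by
  intro n
  induction n with
  | zero =>
    constructor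
    · intro p hp t
      rw [pw_zero']
      unfold dl
      by_cases h : t = 1
      · subst h
        simp
      · rw [if_neg h, if_neg]
        intro h'
        apply h
        rw [mul_inv_eq_one] at h'
        exact mul_eq_left.1 h'
    · funext t
      rw [pw_zero', pw_zero']
      unfold dl
      by_cases h : t = 1
      · subst h
        simp
      · rw [if_neg h, if_neg]
        intro h'
        exact h (Subtype.ext h')
  | succ n ih =>
    rw [pw_succ']
    refine ⟨fun p hp => inv_mulF (ha p hp) (ih.1 p hp), ?_⟩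
    rw [res_mulF hℓ hF hP ha ih.1, ih.2]
    rfl

end alg

/-- CJJ -/
theorem cjj (hLno : LnoStmt) (hRep : RepStmt) (hLwd : T6.LwdStmt) : CjjStmt := by
  intro ℓ hℓ M _ hM G _ _ e V γ hL j j' hj hj'
  have hF : GoodF ℓ (FF M) := H50.fld ℓ Fact.out M hM
  have hV := hL.tp.pg
  have hVC : V ≤ Subgroup.centralizer (V : Set G) := by
    intro v hv
    rw [Subgroup.mem_centralizer_iff]
    intro w hw
    exact hL.ab w hw v hv
  -- the local block of `V` is `γ`
  have hbrγ : br V γ = γ := by
    funext t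
    by_cases ht : t ∈ Subgroup.centralizer (V : Set G)
    · exact H66.br_of_mem ht
    · rw [H66.br_of_not_mem ht, hL.gam.supp t ht]
  have hLw : T6.Lw V γ V γ := ⟨hL.gam, by rw [hbrγ, hL.gam.mul]⟩
  have hLC := ((hLwd ℓ M hM G e V γ hL V le_rfl).2 γ hLw).1
  have hix : ix (V.subgroupOf (Subgroup.centralizer (V : Set G)))
      (fun t : Subgroup.centralizer (V : Set G) => γ t) = 1 := by
    rw [T3.H85.ix_eq hVC le_rfl hL.gam.supp]
    exact Subgroup.relIndex_eq_one.2 inf_le_right
  have hln := hLno ℓ M hM (Subgroup.centralizer (V : Set G)) _ _ _ hLC hix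
  obtain ⟨N, ρ, hρ, -, hnil, -⟩ := hRep ℓ (FF M) hF (Subgroup.centralizer (V : Set G)) _
    hLC.blk.1 hln
  obtain ⟨κ₀, hκ₀⟩ := T8.H14.irrE_nonempty M hLC.blk.1 hLC.blk.2.1
  -- the matrices of the idempotents are not zero
  have hne : ∀ i : G → FF M, Jd M V γ i →
      ev ρ (fun t : Subgroup.centralizer (V : Set G) => i t) ≠ 0 := by
    intro i hi h0
    have h1 := hi.lb V le_rfl γ hLw
    have h2 : mulF (fun t : Subgroup.centralizer (V : Set G) => γ t)
        (fun t : Subgroup.centralizer (V : Set G) => i t) =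
        fun t : Subgroup.centralizer (V : Set G) => i t := by
      rw [H20.mulF_comm_of_cl hLC.blk.1.1]
      have h3 := mulF_res (Subgroup.centralizer (V : Set G)) γ
        (fun x hx => H66.br_of_not_mem (a := i) hx)
      rw [h1] at h3
      have h4 : (fun t : Subgroup.centralizer (V : Set G) => br V i t) =
          fun t : Subgroup.centralizer (V : Set G) => i t := by
        funext t
        exact H66.br_of_mem t.2
      rw [h4] at h3
      exact h3.symm
    obtain ⟨k, hk⟩ := hnil _ h2 h0
    have h5 : mulF (fun t : Subgroup.centralizer (V : Set G) => i t)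
        (fun t : Subgroup.centralizer (V : Set G) => i t) =
        fun t : Subgroup.centralizer (V : Set G) => i t := by
      rw [← res_mulF hF.prime hF.char hV hi.iv hi.iv, hi.id]
    rw [it_idem h5] at hk
    apply hi.nz κ₀ hκ₀
    apply finsum_eq_zero_of_forall_eq_zero
    intro t
    have h6 := congrFun hk t
    change i t = 0 at h6
    rw [h6, zero_mul]
  obtain ⟨X, Y, hXY⟩ := exists_trace (hne j hj) (hne j' hj')
  obtain ⟨x₀, hx₀⟩ := H33.ev_surj hρ X
  obtain ⟨y₀, hy₀⟩ := H33.ev_surj hρ Y
  -- the elements of the group ring of `G`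
  obtain ⟨x, hxs, hx⟩ : ∃ x : G → FF M, (∀ g, g ∉ Subgroup.centralizer (V : Set G) → x g = 0) ∧
      (fun t : Subgroup.centralizer (V : Set G) => x t) = x₀ :=
    ⟨PP.ext0 (Subgroup.centralizer (V : Set G)) x₀, H75.ext0_supp _ x₀, by
      funext t
      exact H75.ext0_apply _ x₀ t⟩
  obtain ⟨y, hys, hy⟩ : ∃ y : G → FF M, (∀ g, g ∉ Subgroup.centralizer (V : Set G) → y g = 0) ∧
      (fun t : Subgroup.centralizer (V : Set G) => y t) = y₀ :=
    ⟨PP.ext0 (Subgroup.centralizer (V : Set G)) y₀, H75.ext0_supp _ y₀, by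
      funext t
      exact H75.ext0_apply _ y₀ t⟩
  have hxi := inv_ext hVC hxs
  have hyi := inv_ext hVC hys
  have hJ : ∀ t : G → FF M, mulF j (mulF j t) = mulF j t := fun t => by
    rw [← H20.mulF_assoc, hj.id]
  have hJ' : ∀ t : G → FF M, mulF j' (mulF j' t) = mulF j' t := fun t => by
    rw [← H20.mulF_assoc, hj'.id]
  obtain ⟨u, hu⟩ : ∃ u, u = mulF j (mulF x (mulF j' (mulF y j))) := ⟨_, rfl⟩
  have hui : ∀ p ∈ V, ∀ t, u (p * t * p⁻¹) = u t := by
    intro p hp
    rw [hu]
    exact inv_mulF (hj.iv p hp) (inv_mulF (hxi p hp) (inv_mulF (hj'.iv p hp)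
      (inv_mulF (hyi p hp) (hj.iv p hp))))
  have hju : mulF j u = u := by
    rw [hu, hJ]
  have huj : mulF u j = u := by
    rw [hu]
    simp only [H20.mulF_assoc, hj.id]
  -- `u` is not nilpotent
  have hevu : ev ρ (fun t : Subgroup.centralizer (V : Set G) => u t) =
      ev ρ (fun t : Subgroup.centralizer (V : Set G) => j t) * (X *
        (ev ρ (fun t : Subgroup.centralizer (V : Set G) => j' t) * (Y *
          ev ρ (fun t : Subgroup.centralizer (V : Set G) => j t)))) := by
    have h1 : ∀ p ∈ V, ∀ t, mulF y j (p * t * p⁻¹) = mulF y j t :=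
      fun p hp => inv_mulF (hyi p hp) (hj.iv p hp)
    have h2 : ∀ p ∈ V, ∀ t, mulF j' (mulF y j) (p * t * p⁻¹) = mulF j' (mulF y j) t :=
      fun p hp => inv_mulF (hj'.iv p hp) (h1 p hp)
    have h3 : ∀ p ∈ V, ∀ t, mulF x (mulF j' (mulF y j)) (p * t * p⁻¹) =
        mulF x (mulF j' (mulF y j)) t := fun p hp => inv_mulF (hxi p hp) (h2 p hp)
    rw [hu, res_mulF hF.prime hF.char hV hj.iv h3, res_mulF hF.prime hF.char hV hxi h2,
      res_mulF hF.prime hF.char hV hj'.iv h1, res_mulF hF.prime hF.char hV hyi hj.iv,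
      H20.ev_mulF, H20.ev_mulF, H20.ev_mulF, H20.ev_mulF, hx, hy, hx₀, hy₀]
  have hPP : ev ρ (fun t : Subgroup.centralizer (V : Set G) => j t) *
      ev ρ (fun t : Subgroup.centralizer (V : Set G) => j t) =
      ev ρ (fun t : Subgroup.centralizer (V : Set G) => j t) := by
    rw [← H20.ev_mulF, ← res_mulF hF.prime hF.char hV hj.iv hj.iv, hj.id]
  have htr : (ev ρ (fun t : Subgroup.centralizer (V : Set G) => u t)).trace ≠ 0 := by
    rw [hevu]
    have h1 : ∀ P A B C : Matrix (Fin N) (Fin N) (FF M), P * P = P →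
        (P * (A * (B * (C * P)))).trace = (P * (A * (B * C))).trace := by
      intro P A B C hP
      have h2 : P * (A * (B * (C * P))) = (P * (A * (B * C))) * P := by
        simp only [Matrix.mul_assoc]
      rw [h2, Matrix.trace_mul_comm, ← Matrix.mul_assoc, hP]
    rw [h1 _ _ _ _ hPP]
    exact hXY
  obtain ⟨n, hn, hun⟩ := hj.lo u hui hju huj
  obtain ⟨m, rfl⟩ := Nat.exists_eq_succ_of_ne_zero hn.ne'
  have hum : pw u (m + 1) = j := by
    rcases hun with h | h
    · exact h
    · exfalso
      apply htr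
      have h1 := (res_pw hF.prime hF.char hV hui (m + 1)).2
      rw [h] at h1
      have h2 := ev_pw ρ (fun t : Subgroup.centralizer (V : Set G) => u t) m
      rw [← h1] at h2
      have h3 : ev ρ (fun t : Subgroup.centralizer (V : Set G) => (0 : G → FF M) t) = 0 := by
        unfold ev
        apply finsum_eq_zero_of_forall_eq_zero
        intro t
        change (0 : FF M) • ρ t = 0
        exact zero_smul (FF M) (ρ t)
      rw [h3] at h2
      have h4 : IsNilpotent (ev ρ (fun t : Subgroup.centralizer (V : Set G) => u t)) :=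
        ⟨m + 1, h2.symm⟩
      exact (Matrix.isNilpotent_trace_of_isNilpotent h4).eq_zero
  have humi := (res_pw hF.prime hF.char hV hui m).1
  -- `j` commutes with the powers of `u`
  have hjpw : ∀ k : ℕ, mulF (mulF j (pw u k)) j = mulF j (pw u k) := by
    intro k
    cases k with
    | zero => rw [pw_zero', mul_dl_one, hj.id]
    | succ k =>
      have h1 : ∀ k : ℕ, mulF (pw u (k + 1)) j = pw u (k + 1) := by
        intro k
        induction k with
        | zero => rw [pw_succ', pw_zero', mul_dl_one, huj]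
        | succ k ih => rw [pw_succ' u (k + 1), H20.mulF_assoc, ih]
      rw [H20.mulF_assoc, h1]
  obtain ⟨a, ha⟩ : ∃ a, a = mulF j (mulF x j') := ⟨_, rfl⟩
  obtain ⟨b, hb⟩ : ∃ b, b = mulF j' (mulF y (mulF j (pw u m))) := ⟨_, rfl⟩
  have hai : ∀ p ∈ V, ∀ t, a (p * t * p⁻¹) = a t := by
    intro p hp
    rw [ha]
    exact inv_mulF (hj.iv p hp) (inv_mulF (hxi p hp) (hj'.iv p hp))
  have hbi : ∀ p ∈ V, ∀ t, b (p * t * p⁻¹) = b t := by
    intro p hp
    rw [hb]
    exact inv_mulF (hj'.iv p hp) (inv_mulF (hyi p hp) (inv_mulF (hj.iv p hp) (humi p hp)))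
  have hja : mulF j a = a := by rw [ha, hJ]
  have haj : mulF a j' = a := by
    rw [ha]
    simp only [H20.mulF_assoc, hj'.id]
  have hjb : mulF j' b = b := by rw [hb, hJ']
  have hbj : mulF b j = b := by
    have h1 := hjpw m
    rw [H20.mulF_assoc] at h1
    rw [hb]
    simp only [H20.mulF_assoc]
    rw [h1]
  have hab : mulF a b = j := by
    rw [← hum, pw_succ']
    have h1 : mulF a b = mulF (mulF j (mulF x (mulF j' (mulF y j)))) (pw u m) := by
      rw [ha, hb]
      simp only [H20.mulF_assoc, hJ']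
    rw [h1, ← hu]
  have hz : mulF (mulF b a) (mulF b a) = mulF b a := by
    rw [H20.mulF_assoc, ← H20.mulF_assoc a b a, hab, hja]
  have hzi : ∀ p ∈ V, ∀ t, mulF b a (p * t * p⁻¹) = mulF b a t :=
    fun p hp => inv_mulF (hbi p hp) (hai p hp)
  obtain ⟨n', hn', hzn⟩ := hj'.lo (mulF b a) hzi (by rw [← H20.mulF_assoc, hjb])
    (by rw [H20.mulF_assoc, haj])
  obtain ⟨m', rfl⟩ := Nat.exists_eq_succ_of_ne_zero hn'.ne'
  rw [Nat.succ_eq_add_one, pw_idem hz] at hzn
  have hba : mulF b a = j' := by
    rcases hzn with h | h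
    · exact h
    · exfalso
      have h1 : j = 0 := by
        have h2 : mulF (mulF a b) (mulF a b) = 0 := by
          rw [H20.mulF_assoc, ← H20.mulF_assoc b a b, h, mulF_zero_left, mulF_zero_right]
        rw [hab, hj.id] at h2
        exact h2
      apply hj.nz κ₀ hκ₀
      apply finsum_eq_zero_of_forall_eq_zero
      intro t
      rw [h1]
      exact zero_mul _
  exact ⟨a, b, hai, hbi, hja, haj, hjb, hbj, hab, hba⟩

end Pool.Agent.PFC.H70
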